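import Pool.Agent.Helper82.Circ.Defs
import Pool.Agent.Helper82.Circ.Main
import Pool.Agent.Helper29.CircC
import Pool.Agent.Helper35.CircD.Main
import Pool.Agent.Helper35.CircB.Main
import Pool.Agent.Helper53.CircP

/-!
A closed oriented aspherical manifold with a nontrivial central element of its fundamental group
which no free circle action on any finite covering realises.
-/

open Topology Manifold
open Pool.Agent.Helper82.Circ

namespace Pool.Agent.Results.MP_2f0aff_gt.NotRealisedInCovers

/-- There are a closed (compact, Hausdorff, connected, locally Euclidean) oriented aspherical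
manifold `M`, a point `m` and a central element `g ≠ 1` of `π₁(M, m)` such that for every finite
connected covering `q : N → M` no free continuous circle action on `N` has an orbit whose loop
represents `g`. -/
theorem result : ∃ (n : ℕ) (M : Type) (_ : TopologicalSpace M)
    (_ : ChartedSpace (EuclideanSpace ℝ (Fin n)) M), T2Space M ∧ CompactSpace M ∧
    ConnectedSpace M ∧ OrientedAtlas n M ∧ Aspherical M ∧
    ∃ (m : M) (g : FundamentalGroup M m), g ∈ Subgroup.center (FundamentalGroup M m) ∧
      g ≠ 1 ∧ NotRealised M m g := by
  obtain ⟨E, V, _, _, _, K, z, x, y, t, v₀, hz, hinf, h1, h2, htr, hst, hinv, hfst, hv₀, hloc,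
    hcontr⟩ := Helper35.CircD.exists_complex
  obtain ⟨W, B, _, _, _, _, L, κ, hκ⟩ :=
    exists_covD K z v₀ hz htr hst hinv hfst hv₀ hloc hcontr
  obtain ⟨R, T, _, _, _, D, d, τ, hM⟩ := Helper53.CircP.exists_MD hκ
  have h : MDz E R B T D d τ z := { toMD := hM, central := hz, inf := hinf }
  have hCH := contractible_CH h
  have hU : ContractibleSpace (UU h) :=
    Helper35.CircB.contractible_unf (cm_symm h) (mirs h) (exists_sdr_CH h)
  exact exists_manifold h hU h1 h2

end Pool.Agent.Results.MP_2f0aff_gt.NotRealisedInCovers
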